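import Mathlib
import Pool.Agent.Helper94.EngelOrderG

set_option autoImplicit false

/-!
# Finitely generated simple groups with a two-sided order are commutative
-/

namespace Pool.Agent.Helper94.Tarski

section

variable {G : Type*} [Group G] [LinearOrder G] [MulLeftMono G] [MulRightMono G]

theorem mul_lt_mul_two {a b c d : G} (h1 : a < b) (h2 : c < d) : a * c < b * d :=
  mul_lt_mul_of_lt_of_lt h1 h2

/-- the convex subgroup of all elements dominated by the powers of `x` -/
def Dom (x : G) (hx : 1 < x) : Subgroup G where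
  carrier := {y | ∃ k : ℕ, y < x ^ k ∧ y⁻¹ < x ^ k}
  mul_mem' := by
    rintro a b ⟨k, h1, h2⟩ ⟨l, h3, h4⟩
    refine ⟨k + l, ?_, ?_⟩
    · rw [pow_add]; exact mul_lt_mul_two h1 h3
    · rw [mul_inv_rev, add_comm, pow_add]; exact mul_lt_mul_two h4 h2
  one_mem' := ⟨1, by simpa using hx, by simpa using hx⟩
  inv_mem' := by
    rintro a ⟨k, h1, h2⟩
    exact ⟨k, h2, by rwa [inv_inv]⟩

theorem mem_Dom {x : G} (hx : 1 < x) (y : G) : y ∈ Dom x hx ↔ ∃ k : ℕ, y < x ^ k ∧ y⁻¹ < x ^ k :=
  Iff.rfl

theorem pow_lt_conj (h x y : G) (k : ℕ) : y < x ^ k → h * y * h⁻¹ < (h * x * h⁻¹) ^ k := by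
  intro hk
  have e : (h * x * h⁻¹) ^ k = h * x ^ k * h⁻¹ := by
    rw [conj_pow]
  rw [e]
  exact mul_lt_mul_left (mul_lt_mul_right hk h) h⁻¹

theorem arch_of_simple [IsSimpleGroup G] (hfg : Group.FG G) (x y : G) (hx : 1 < x) :
    ∃ m : ℕ, y < x ^ m := by
  classical
  obtain ⟨T, hT⟩ := Group.fg_def.1 hfg
  -- an element dominating the generators
  obtain ⟨g, hg1, hgT⟩ : ∃ g : G, 1 < g ∧ ∀ t ∈ T, t < g ∧ t⁻¹ < g := by
    let U : Finset G := insert x (T ∪ T.image (fun t => t⁻¹))
    have hU : U.Nonempty := ⟨x, Finset.mem_insert_self _ _⟩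
    have hm : 1 < U.max' hU := hx.trans_le (Finset.le_max' _ _ (Finset.mem_insert_self _ _))
    have hlt : U.max' hU < U.max' hU * U.max' hU := by
      have := mul_lt_mul_two hm (lt_of_lt_of_le hm le_rfl)
      calc U.max' hU = U.max' hU * 1 := (mul_one _).symm
        _ < U.max' hU * U.max' hU := mul_lt_mul_right hm _
    refine ⟨U.max' hU * U.max' hU, hm.trans hlt, fun t ht => ⟨?_, ?_⟩⟩
    · refine (Finset.le_max' _ _ ?_).trans_lt hlt
      exact Finset.mem_insert_of_mem (Finset.mem_union_left _ ht)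
    · refine (Finset.le_max' _ _ ?_).trans_lt hlt
      exact Finset.mem_insert_of_mem (Finset.mem_union_right _ (Finset.mem_image_of_mem _ ht))
  -- if `g` is dominated by `z` then everything is
  have htop : ∀ (z : G) (hz : 1 < z), g ∈ Dom z hz → Dom z hz = ⊤ := by
    intro z hz hgz
    rw [eq_top_iff, ← hT, Subgroup.closure_le]
    intro t ht
    obtain ⟨k, h1, _⟩ := hgz
    exact ⟨k, (hgT t ht).1.trans h1, (hgT t ht).2.trans h1⟩
  have hmono : ∀ (a b : G) (ha : 1 < a) (hb : 1 < b), a ≤ b → Dom a ha ≤ Dom b hb := by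
    rintro a b ha hb hab z ⟨k, h1, h2⟩
    have h3 : a ^ k ≤ b ^ k := pow_le_pow_left' hab k
    exact ⟨k, h1.trans_le h3, h2.trans_le h3⟩
  by_cases hgx : g ∈ Dom x hx
  · have h1 : y ∈ Dom x hx := by rw [htop x hx hgx]; trivial
    obtain ⟨k, h2, _⟩ := h1
    exact ⟨k, h2⟩
  exfalso
  let C : Subgroup G :=
    { carrier := {z | ∃ (a : G) (ha : 1 < a), g ∉ Dom a ha ∧ z ∈ Dom a ha}
      mul_mem' := by
        rintro z w ⟨a, ha, h1, h2⟩ ⟨b, hb, h3, h4⟩
        rcases le_total a b with h | h
        · exact ⟨b, hb, h3, (Dom b hb).mul_mem (hmono a b ha hb h h2) h4⟩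
        · exact ⟨a, ha, h1, (Dom a ha).mul_mem h2 (hmono b a hb ha h h4)⟩
      one_mem' := ⟨x, hx, hgx, (Dom x hx).one_mem⟩
      inv_mem' := by
        rintro z ⟨a, ha, h1, h2⟩
        exact ⟨a, ha, h1, (Dom a ha).inv_mem h2⟩ }
  have hCn : C.Normal := by
    refine ⟨?_⟩
    rintro z ⟨a, ha, h1, k, h2, h3⟩ h
    have ha' : 1 < h * a * h⁻¹ := by
      have := pow_lt_conj h a 1 1 (by simpa using ha)
      simpa using this
    refine ⟨h * a * h⁻¹, ha', ?_, k, pow_lt_conj h a z k h2, ?_⟩
    · intro hg2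
      apply h1
      have h4 := htop _ ha' hg2
      have h5 : h * g * h⁻¹ ∈ Dom _ ha' := by rw [h4]; trivial
      obtain ⟨j, h6, h7⟩ := h5
      refine ⟨j, ?_, ?_⟩
      · have := pow_lt_conj h⁻¹ (h * a * h⁻¹) _ j h6
        simpa [mul_assoc] using this
      · have := pow_lt_conj h⁻¹ (h * a * h⁻¹) _ j h7
        simpa [mul_assoc] using this
    · have := pow_lt_conj h a z⁻¹ k h3
      simpa [mul_assoc] using this
  rcases hCn.eq_bot_or_eq_top with h | h
  · have hxC : x ∈ C := ⟨x, hx, hgx, 2, by
      calc x = x * 1 := (mul_one _).symm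
        _ < x * x := mul_lt_mul_right hx _
        _ = x ^ 2 := (pow_two x).symm, by
      have h2 : x⁻¹ < 1 := by
        have := mul_lt_mul_right hx x⁻¹
        simpa using this
      have h3 : (1 : G) < x ^ 2 := by
        rw [pow_two]
        have := mul_lt_mul_two hx hx
        simpa using this
      exact h2.trans h3⟩
    rw [h, Subgroup.mem_bot] at hxC
    exact hx.ne' hxC
  · have hgC : g ∈ C := by rw [h]; trivial
    obtain ⟨a, ha, h1, h2⟩ := hgC
    exact h1 h2

end

/-- a finitely generated simple group with a two-sided positive cone is commutative -/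
theorem comm_of_cone {G : Type*} [Group G] [IsSimpleGroup G] (hfg : Group.FG G) (P : Set G)
    (h1 : (1 : G) ∉ P) (hmul : ∀ a ∈ P, ∀ b ∈ P, a * b ∈ P)
    (htri : ∀ g : G, g ≠ 1 → g ∈ P ∨ g⁻¹ ∈ P) (hconj : ∀ g ∈ P, ∀ h : G, h * g * h⁻¹ ∈ P)
    (a b : G) : a * b = b * a := by
  classical
  let _ : LinearOrder G :=
    { le := fun a b => a = b ∨ b * a⁻¹ ∈ P
      lt := fun a b => b * a⁻¹ ∈ P
      le_refl := fun a => Or.inl rfl
      le_trans := by
        rintro a b c (rfl | h2) (rfl | h3)
        · exact Or.inl rfl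
        · exact Or.inr h3
        · exact Or.inr h2
        · right
          have := hmul _ h3 _ h2
          have e : c * b⁻¹ * (b * a⁻¹) = c * a⁻¹ := by group
          rwa [e] at this
      le_antisymm := by
        rintro a b (rfl | h2) (h3 | h3)
        · rfl
        · rfl
        · exact h3.symm
        · exfalso
          have := hmul _ h3 _ h2
          have e : a * b⁻¹ * (b * a⁻¹) = 1 := by group
          rw [e] at this
          exact h1 this
      le_total := by
        intro a b
        by_cases hab : b * a⁻¹ = 1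
        · exact Or.inl (Or.inl (mul_inv_eq_one.1 hab).symm)
        · rcases htri _ hab with h | h
          · exact Or.inl (Or.inr h)
          · right; right
            have e : (b * a⁻¹)⁻¹ = a * b⁻¹ := by group
            rwa [e] at h
      lt_iff_le_not_ge := by
        intro a b
        constructor
        · intro h
          refine ⟨Or.inr h, ?_⟩
          rintro (h2 | h2)
          · rw [h2, mul_inv_cancel] at h; exact h1 h
          · have := hmul _ h _ h2
            have e : b * a⁻¹ * (a * b⁻¹) = 1 := by group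
            rw [e] at this
            exact h1 this
        · rintro ⟨h | h, h2⟩
          · exact absurd (Or.inl h.symm) h2
          · exact h
      toDecidableLE := Classical.decRel _ }
  have hlt : ∀ a b : G, a < b ↔ b * a⁻¹ ∈ P := fun a b => Iff.rfl
  have hl : ∀ a b c : G, a < b → c * a < c * b := by
    intro a b c h
    rw [hlt] at h ⊢
    have := hconj _ h c
    have e : c * b * (c * a)⁻¹ = c * (b * a⁻¹) * c⁻¹ := by group
    rwa [e]
  have hr : ∀ a b c : G, a < b → a * c < b * c := by
    intro a b c h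
    rw [hlt] at h ⊢
    have e : b * c * (a * c)⁻¹ = b * a⁻¹ := by group
    rwa [e]
  have i1 : MulLeftMono G := ⟨fun c a b h => by
    rcases lt_or_eq_of_le h with h | h
    · exact (hl _ _ c h).le
    · rw [h]⟩
  have i2 : MulRightMono G := ⟨fun c a b h => by
    rcases lt_or_eq_of_le h with h | h
    · exact (hr _ _ c h).le
    · rw [h]⟩
  exact holder_comm hl hr (fun x y hx => arch_of_simple hfg x y hx) a b

end Pool.Agent.Helper94.Tarski
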