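import Mathlib
import Pool.Agent.Helper94.Tarski.BiSimple
import Pool.Agent.Helper580.Law.Final

set_option autoImplicit false

/-!
# Nontrivial finitely generated right-orderable groups with a law map onto `ℤ`
-/

namespace Pool.Agent.Helper94.Tarski

/-- order from a two-sided cone -/
noncomputable def coneOrder {G : Type*} [Group G] (P : Set G)
    (h1 : (1 : G) ∉ P) (hmul : ∀ a ∈ P, ∀ b ∈ P, a * b ∈ P)
    (htri : ∀ g : G, g ≠ 1 → g ∈ P ∨ g⁻¹ ∈ P) : LinearOrder G :=
    { le := fun a b => a = b ∨ b * a⁻¹ ∈ P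
      lt := fun a b => b * a⁻¹ ∈ P
      le_refl := fun a => Or.inl rfl
      le_trans := by
        rintro a b c (rfl | h2) (rfl | h3)
        · exact Or.inl rfl
        · exact Or.inr h3
        · exact Or.inr h2
        · right
          have := hmul _ h3 _ h2
          have e : c * b⁻¹ * (b * a⁻¹) = c * a⁻¹ := by group
          rwa [e] at this
      le_antisymm := by
        rintro a b (rfl | h2) (h3 | h3)
        · rfl
        · rfl
        · exact h3.symm
        · exfalso
          have := hmul _ h3 _ h2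
          have e : a * b⁻¹ * (b * a⁻¹) = 1 := by group
          rw [e] at this
          exact h1 this
      le_total := by
        intro a b
        by_cases hab : b * a⁻¹ = 1
        · exact Or.inl (Or.inl (mul_inv_eq_one.1 hab).symm)
        · rcases htri _ hab with h | h
          · exact Or.inl (Or.inr h)
          · right; right
            have e : (b * a⁻¹)⁻¹ = a * b⁻¹ := by group
            rwa [e] at h
      lt_iff_le_not_ge := by
        intro a b
        constructor
        · intro h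
          refine ⟨Or.inr h, ?_⟩
          rintro (h2 | h2)
          · rw [h2, mul_inv_cancel] at h; exact h1 h
          · have := hmul _ h _ h2
            have e : b * a⁻¹ * (a * b⁻¹) = 1 := by group
            rw [e] at this
            exact h1 this
        · rintro ⟨h | h, h2⟩
          · exact absurd (Or.inl h.symm) h2
          · exact h
      toDecidableLE := Classical.decRel _ }

theorem coneOrder_lt {G : Type*} [Group G] (P : Set G)
    (h1 : (1 : G) ∉ P) (hmul : ∀ a ∈ P, ∀ b ∈ P, a * b ∈ P)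
    (htri : ∀ g : G, g ≠ 1 → g ∈ P ∨ g⁻¹ ∈ P) (a b : G) :
    (coneOrder P h1 hmul htri).lt a b ↔ b * a⁻¹ ∈ P := Iff.rfl

theorem comm_of_arch_cone {G : Type*} [Group G] (P : Set G)
    (h1 : (1 : G) ∉ P) (hmul : ∀ a ∈ P, ∀ b ∈ P, a * b ∈ P)
    (htri : ∀ g : G, g ≠ 1 → g ∈ P ∨ g⁻¹ ∈ P) (hconj : ∀ g ∈ P, ∀ h : G, h * g * h⁻¹ ∈ P)
    (harch : ∀ x ∈ P, ∀ y : G, ∃ m : ℕ, x ^ m * y⁻¹ ∈ P)
    (a b : G) : a * b = b * a := by
  classical
  let _ : LinearOrder G := coneOrder P h1 hmul htri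
  have hlt : ∀ a b : G, a < b ↔ b * a⁻¹ ∈ P := fun a b => Iff.rfl
  have hl : ∀ a b c : G, a < b → c * a < c * b := by
    intro a b c h
    rw [hlt] at h ⊢
    have := hconj _ h c
    have e : c * b * (c * a)⁻¹ = c * (b * a⁻¹) * c⁻¹ := by group
    rwa [e]
  have hr : ∀ a b c : G, a < b → a * c < b * c := by
    intro a b c h
    rw [hlt] at h ⊢
    have e : b * c * (a * c)⁻¹ = b * a⁻¹ := by group
    rwa [e]
  refine holder_comm hl hr (fun x y hx => ?_) a b
  rw [hlt, inv_one, mul_one] at hx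
  obtain ⟨m, hm⟩ := harch x hx y
  exact ⟨m, hm⟩

section

variable {G : Type*} [Group G] [LinearOrder G] [MulLeftMono G] [MulRightMono G]

theorem surj_of_biorder [Nontrivial G] (hfg : Group.FG G) :
    ∃ φ : G →* Multiplicative ℤ, Function.Surjective φ := by
  classical
  obtain ⟨T, hT⟩ := Group.fg_def.1 hfg
  obtain ⟨x0, hx0⟩ : ∃ x : G, 1 < x := by
    obtain ⟨x, hx⟩ := exists_ne (1 : G)
    rcases lt_or_gt_of_ne hx with h | h
    · exact ⟨x⁻¹, one_lt_inv'.2 h⟩
    · exact ⟨x, h⟩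
  obtain ⟨g, hg1, hgT⟩ : ∃ g : G, 1 < g ∧ ∀ t ∈ T, t < g ∧ t⁻¹ < g := by
    let U : Finset G := insert x0 (T ∪ T.image (fun t => t⁻¹))
    have hU : U.Nonempty := ⟨x0, Finset.mem_insert_self _ _⟩
    have hm : 1 < U.max' hU := hx0.trans_le (Finset.le_max' _ _ (Finset.mem_insert_self _ _))
    have hlt : U.max' hU < U.max' hU * U.max' hU := by
      calc U.max' hU = U.max' hU * 1 := (mul_one _).symm
        _ < U.max' hU * U.max' hU := mul_lt_mul_right hm _
    refine ⟨U.max' hU * U.max' hU, hm.trans hlt, fun t ht => ⟨?_, ?_⟩⟩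
    · refine (Finset.le_max' _ _ ?_).trans_lt hlt
      exact Finset.mem_insert_of_mem (Finset.mem_union_left _ ht)
    · refine (Finset.le_max' _ _ ?_).trans_lt hlt
      exact Finset.mem_insert_of_mem (Finset.mem_union_right _ (Finset.mem_image_of_mem _ ht))
  have htop : ∀ (z : G) (hz : 1 < z), g ∈ Dom z hz → Dom z hz = ⊤ := by
    intro z hz hgz
    rw [eq_top_iff, ← hT, Subgroup.closure_le]
    intro t ht
    obtain ⟨k, h1, _⟩ := hgz
    exact ⟨k, (hgT t ht).1.trans h1, (hgT t ht).2.trans h1⟩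
  have hmono : ∀ (a b : G) (ha : 1 < a) (hb : 1 < b), a ≤ b → Dom a ha ≤ Dom b hb := by
    rintro a b ha hb hab z ⟨k, h1, h2⟩
    have h3 : a ^ k ≤ b ^ k := pow_le_pow_left' hab k
    exact ⟨k, h1.trans_le h3, h2.trans_le h3⟩
  have hself : ∀ (a : G) (ha : 1 < a), a ∈ Dom a ha := by
    intro a ha
    refine ⟨2, ?_, ?_⟩
    · calc a = a * 1 := (mul_one _).symm
        _ < a * a := mul_lt_mul_right ha _
        _ = a ^ 2 := (pow_two a).symm
    · have h2 : a⁻¹ < 1 := by
        have := mul_lt_mul_right ha a⁻¹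
        simpa using this
      have h3 : (1 : G) < a ^ 2 := by
        rw [pow_two]
        have := mul_lt_mul_two ha ha
        simpa using this
      exact h2.trans h3
  let C : Subgroup G :=
    { carrier := {z | z = 1 ∨ ∃ (a : G) (ha : 1 < a), g ∉ Dom a ha ∧ z ∈ Dom a ha}
      mul_mem' := by
        rintro z w (rfl | ⟨a, ha, h1, h2⟩) hw
        · rw [one_mul]; exact hw
        rcases hw with rfl | ⟨b, hb, h3, h4⟩
        · rw [mul_one]; exact Or.inr ⟨a, ha, h1, h2⟩
        rcases le_total a b with h | h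
        · exact Or.inr ⟨b, hb, h3, (Dom b hb).mul_mem (hmono a b ha hb h h2) h4⟩
        · exact Or.inr ⟨a, ha, h1, (Dom a ha).mul_mem h2 (hmono b a hb ha h h4)⟩
      one_mem' := Or.inl rfl
      inv_mem' := by
        rintro z (rfl | ⟨a, ha, h1, h2⟩)
        · exact Or.inl inv_one
        · exact Or.inr ⟨a, ha, h1, (Dom a ha).inv_mem h2⟩ }
  have hmemC : ∀ z : G, z ∈ C ↔ z = 1 ∨ ∃ (a : G) (ha : 1 < a), g ∉ Dom a ha ∧ z ∈ Dom a ha :=
    fun z => Iff.rfl
  have hCn : C.Normal := by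
    refine ⟨?_⟩
    rintro z (rfl | ⟨a, ha, h1, k, h2, h3⟩) h
    · simp
    have ha' : 1 < h * a * h⁻¹ := by
      have := pow_lt_conj h a 1 1 (by simpa using ha)
      simpa using this
    refine Or.inr ⟨h * a * h⁻¹, ha', ?_, k, pow_lt_conj h a z k h2, ?_⟩
    · intro hg2
      apply h1
      have h4 := htop _ ha' hg2
      have h5 : h * g * h⁻¹ ∈ Dom _ ha' := by rw [h4]; trivial
      obtain ⟨j, h6, h7⟩ := h5
      refine ⟨j, ?_, ?_⟩
      · have := pow_lt_conj h⁻¹ (h * a * h⁻¹) _ j h6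
        simpa [mul_assoc] using this
      · have := pow_lt_conj h⁻¹ (h * a * h⁻¹) _ j h7
        simpa [mul_assoc] using this
    · have := pow_lt_conj h a z⁻¹ k h3
      simpa [mul_assoc] using this
  have hgC : g ∉ C := by
    rintro (h | ⟨a, ha, h1, h2⟩)
    · exact hg1.ne' h
    · exact h1 h2
  -- convexity
  have hconv : ∀ x z : G, 1 < x → x ≤ z → z ∈ C → x ∈ C := by
    rintro x z hx hxz (rfl | ⟨a, ha, h1, k, h2, h3⟩)
    · exact absurd hxz (not_le.2 hx)
    · have h4 : x⁻¹ < 1 := by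
        have := mul_lt_mul_right hx x⁻¹
        simpa using this
      refine Or.inr ⟨a, ha, h1, k, hxz.trans_lt h2, h4.trans_le (one_le_pow_of_one_le' ha.le k)⟩
  -- the cone of the quotient
  let P : Set (G ⧸ C) := {q | ∃ h : G, h ∉ C ∧ 1 < h ∧ (h : G ⧸ C) = q}
  have hPs : ∀ x s : G, x ∉ C → 1 < x → s ∈ C → 1 < x * s := by
    intro x s hxC hx hs
    rcases hs with rfl | ⟨a, ha, h1, k, h2, h3⟩
    · rwa [mul_one]
    · have h4 : a ^ k ≤ x := by
        by_contra hcon
        push Not at hcon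
        apply hxC
        have h4 : x⁻¹ < 1 := by
          have := mul_lt_mul_right hx x⁻¹
          simpa using this
        exact Or.inr ⟨a, ha, h1, k, hcon, h4.trans_le (one_le_pow_of_one_le' ha.le k)⟩
      have h5 : s⁻¹ < x := h3.trans_le h4
      have := mul_lt_mul_left h5 s
      rwa [inv_mul_cancel] at this
  have hP : ∀ h : G, (h : G ⧸ C) ∈ P ↔ h ∉ C ∧ 1 < h := by
    intro h
    constructor
    · rintro ⟨h', h1, h2, h3⟩
      have h4 : h'⁻¹ * h ∈ C := QuotientGroup.eq.1 h3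
      refine ⟨fun hh => h1 ?_, ?_⟩
      · have := C.mul_mem hh (C.inv_mem h4)
        have e : h * (h'⁻¹ * h)⁻¹ = h' := by group
        rwa [e] at this
      · have := hPs h' (h'⁻¹ * h) h1 h2 h4
        rwa [mul_inv_cancel_left] at this
    · rintro ⟨h1, h2⟩
      exact ⟨h, h1, h2, rfl⟩
  have hcomm : ∀ a b : G ⧸ C, a * b = b * a := by
    refine comm_of_arch_cone P ?_ ?_ ?_ ?_ ?_
    · have := (hP 1).not.2 (fun h => h.1 (one_mem _))
      simpa using this
    · rintro _ ⟨x, hx1, hx2, rfl⟩ _ ⟨y, hy1, hy2, rfl⟩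
      rw [← QuotientGroup.mk_mul, hP]
      have hxy : 1 < x * y := by
        have := mul_lt_mul_two hx2 hy2
        simpa using this
      refine ⟨fun h => hx1 (hconv x (x * y) hx2 ?_ h), hxy⟩
      calc x = x * 1 := (mul_one _).symm
        _ ≤ x * y := (mul_lt_mul_right hy2 x).le
    · intro a ha
      obtain ⟨a, rfl⟩ := QuotientGroup.mk_surjective a
      have ha' : a ∉ C := fun h => ha ((QuotientGroup.eq_one_iff a).2 h)
      rcases lt_trichotomy a 1 with h2 | h2 | h2
      · right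
        rw [← QuotientGroup.mk_inv, hP]
        exact ⟨fun h => ha' (by simpa using inv_mem h), one_lt_inv'.2 h2⟩
      · exact (ha' (h2 ▸ one_mem _)).elim
      · left; exact (hP a).2 ⟨ha', h2⟩
    · rintro _ ⟨x, hx1, hx2, rfl⟩ h
      obtain ⟨h, rfl⟩ := QuotientGroup.mk_surjective h
      rw [← QuotientGroup.mk_inv, ← QuotientGroup.mk_mul, ← QuotientGroup.mk_mul, hP]
      refine ⟨fun hh => hx1 ?_, ?_⟩
      · have := hCn.conj_mem _ hh h⁻¹
        simpa [mul_assoc] using this
      · have := pow_lt_conj h x 1 1 (by simpa using hx2)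
        simpa using this
    · rintro _ ⟨x, hx1, hx2, rfl⟩ y
      obtain ⟨y, rfl⟩ := QuotientGroup.mk_surjective y
      have hgx : g ∈ Dom x hx2 := by
        by_contra hcon
        exact hx1 (Or.inr ⟨x, hx2, hcon, hself x hx2⟩)
      have hy : y ∈ Dom x hx2 := by rw [htop x hx2 hgx]; trivial
      obtain ⟨k, h1, _⟩ := hy
      refine ⟨k + 1, ?_⟩
      rw [← QuotientGroup.mk_pow, ← QuotientGroup.mk_inv, ← QuotientGroup.mk_mul, hP]
      have h2 : x < x ^ (k + 1) * y⁻¹ := by
        have h3 : (1 : G) < x ^ k * y⁻¹ := by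
          have := mul_lt_mul_left h1 y⁻¹
          rwa [mul_inv_cancel] at this
        calc x = x * 1 := (mul_one _).symm
          _ < x * (x ^ k * y⁻¹) := mul_lt_mul_right h3 _
          _ = x ^ (k + 1) * y⁻¹ := by rw [pow_succ', mul_assoc]
      exact ⟨fun h => hx1 (hconv _ _ hx2 h2.le h), hx2.trans h2⟩
  let _ : CommGroup (G ⧸ C) := { (inferInstance : Group (G ⧸ C)) with mul_comm := hcomm }
  have hnt : Nontrivial (G ⧸ C) := by
    refine ⟨(g : G ⧸ C), 1, fun h => hgC ((QuotientGroup.eq_one_iff g).1 h)⟩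
  have hfgQ : Group.FG (G ⧸ C) := by
    have := hfg
    exact Group.fg_of_surjective (QuotientGroup.mk'_surjective C)
  obtain ⟨φ, hφ⟩ := exists_surj_of_comm (Q := G ⧸ C) (by
    intro x n hn hx
    obtain ⟨x, rfl⟩ := QuotientGroup.mk_surjective x
    rw [← QuotientGroup.mk_pow, QuotientGroup.eq_one_iff] at hx
    rw [QuotientGroup.eq_one_iff]
    rcases lt_trichotomy x 1 with h | h | h
    · have h1 : 1 < x⁻¹ := one_lt_inv'.2 h
      have h2 : x⁻¹ ≤ (x⁻¹) ^ n := le_self_pow h1.le hn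
      have h3 : (x⁻¹) ^ n ∈ C := by rw [inv_pow]; exact C.inv_mem hx
      have := hconv _ _ h1 h2 h3
      simpa using C.inv_mem this
    · rw [h]; exact C.one_mem
    · exact hconv _ _ h (le_self_pow h.le hn) hx)
  exact ⟨φ.comp (QuotientGroup.mk' C), hφ.comp (QuotientGroup.mk'_surjective C)⟩

end

theorem surj_of_cone {G : Type*} [Group G] [Nontrivial G] (hfg : Group.FG G) (P : Set G)
    (h1 : (1 : G) ∉ P) (hmul : ∀ a ∈ P, ∀ b ∈ P, a * b ∈ P)
    (htri : ∀ g : G, g ≠ 1 → g ∈ P ∨ g⁻¹ ∈ P) (hconj : ∀ g ∈ P, ∀ h : G, h * g * h⁻¹ ∈ P) :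
    ∃ φ : G →* Multiplicative ℤ, Function.Surjective φ := by
  classical
  let _ : LinearOrder G := coneOrder P h1 hmul htri
  have hlt : ∀ a b : G, a < b ↔ b * a⁻¹ ∈ P := fun a b => Iff.rfl
  have hl : ∀ a b c : G, a < b → c * a < c * b := by
    intro a b c h
    rw [hlt] at h ⊢
    have := hconj _ h c
    have e : c * b * (c * a)⁻¹ = c * (b * a⁻¹) * c⁻¹ := by group
    rwa [e]
  have hr : ∀ a b c : G, a < b → a * c < b * c := by
    intro a b c h
    rw [hlt] at h ⊢
    have e : b * c * (a * c)⁻¹ = b * a⁻¹ := by group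
    rwa [e]
  have i1 : MulLeftMono G := ⟨fun c a b h => by
    rcases lt_or_eq_of_le h with h | h
    · exact (hl _ _ c h).le
    · rw [h]⟩
  have i2 : MulRightMono G := ⟨fun c a b h => by
    rcases lt_or_eq_of_le h with h | h
    · exact (hr _ _ c h).le
    · rw [h]⟩
  exact surj_of_biorder hfg

open Pool.Agent.Helper580.Law in
/-- A nontrivial finitely generated right-orderable group with a law maps onto `ℤ`. -/
theorem surj_of_law {G : Type} [Group G] [Nontrivial G] (hfg : Group.FG G)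
    (lt : G → G → Prop) (hirr : ∀ a, ¬ lt a a)
    (htr : ∀ a b c, lt a b → lt b c → lt a c) (htot : ∀ a b, lt a b ∨ a = b ∨ lt b a)
    (hr : ∀ a b c, lt a b → lt (a * c) (b * c))
    (k : ℕ) (v : FreeGroup (Fin k)) (hv : v ≠ 1)
    (hlawv : ∀ f : Fin k → G, FreeGroup.lift f v = 1) :
    ∃ φ : G →* Multiplicative ℤ, Function.Surjective φ := by
  classical
  obtain ⟨w, hw, hlaw⟩ := two_var k v hv hlawv
  obtain ⟨T, hT⟩ := Group.fg_def.1 hfg
  set A := T.erase 1 with hA
  have hAtop : Subgroup.closure (A : Set G) = ⊤ := by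
    rw [eq_top_iff, ← hT, Subgroup.closure_le]
    intro t ht
    by_cases h : t = 1
    · rw [h]; exact Subgroup.one_mem _
    · exact Subgroup.subset_closure (Finset.mem_coe.2 (Finset.mem_erase.2 ⟨h, ht⟩))
  have hAne : A.Nonempty := by
    rw [Finset.nonempty_iff_ne_empty]
    intro h
    rw [h, Finset.coe_empty, Subgroup.closure_empty] at hAtop
    exact bot_ne_top hAtop
  obtain ⟨S⟩ := exists_germ lt hirr htr htot hr w hw hlaw A hAne (by simp [hA])
  have hin : ∀ x : G, x ∈ Subgroup.closure (A : Set G) := fun x => by rw [hAtop]; trivial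
  have hN : S.N.Normal := ⟨fun x hx h => S.conjN h (hin h) x hx⟩
  let P : Set (G ⧸ S.N) := {q | ∃ h : G, h ∈ S.P ∧ (h : G ⧸ S.N) = q}
  have hP : ∀ h : G, (h : G ⧸ S.N) ∈ P ↔ h ∈ S.P := by
    intro h
    constructor
    · rintro ⟨h', h1, h3⟩
      have h4 : h'⁻¹ * h ∈ S.N := QuotientGroup.eq.1 h3
      have := S.mulPN h' h1 _ h4
      rwa [mul_inv_cancel_left] at this
    · intro h1
      exact ⟨h, h1, rfl⟩
  obtain ⟨a, haA, haN⟩ := S.ex
  have hnt : Nontrivial (G ⧸ S.N) :=
    ⟨(a : G ⧸ S.N), 1, fun h => haN ((QuotientGroup.eq_one_iff a).1 h)⟩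
  have hfgQ : Group.FG (G ⧸ S.N) := by
    have := hfg
    exact Group.fg_of_surjective (QuotientGroup.mk'_surjective S.N)
  obtain ⟨φ, hφ⟩ := surj_of_cone hfgQ P (by
      have := (hP 1).not.2 S.one
      simpa using this) (by
      rintro _ ⟨x, hx, rfl⟩ _ ⟨y, hy, rfl⟩
      rw [← QuotientGroup.mk_mul, hP]
      exact S.mulPP x hx y hy) (by
      intro x hx
      obtain ⟨x, rfl⟩ := QuotientGroup.mk_surjective x
      rcases S.hle x (hin x) with h | h | h
      · exact absurd ((QuotientGroup.eq_one_iff x).2 h) hx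
      · exact Or.inl ((hP x).2 h)
      · right
        rw [← QuotientGroup.mk_inv, hP]; exact h) (by
      rintro _ ⟨x, hx, rfl⟩ h
      obtain ⟨h, rfl⟩ := QuotientGroup.mk_surjective h
      rw [← QuotientGroup.mk_inv, ← QuotientGroup.mk_mul, ← QuotientGroup.mk_mul, hP]
      exact S.conjP h (hin h) x hx)
  exact ⟨φ.comp (QuotientGroup.mk' S.N), hφ.comp (QuotientGroup.mk'_surjective S.N)⟩

end Pool.Agent.Helper94.Tarski
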