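import Mathlib
import Pool.Agent.Helper580.Engel.LawMeet

set_option autoImplicit false

/-!
The path argument of helper580, with the displacing elements kept free
(adapted from `Pool.Agent.Helper580.Engel.LawMeet`).
-/

open Filter Topology

namespace Pool.Agent.Helper94.Tarski

open Pool.Agent.Helper580.Engel

variable {G : Type*} [Group G]

theorem Dsp.pow {φ : G →* (ℝ ≃o ℝ)} {g : G} {l u d : ℝ} (hld : l + d ≤ u - d)
    (h : Dsp φ g l u d) (j : ℕ) : Dsp φ (g ^ (j + 1)) l u d := by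
  induction j with
  | zero => simpa using h
  | succ j ih =>
    rcases h with h | h
    · left
      rcases ih with ih | ih
      · rw [pow_succ', phi_mul]
        have h1 : φ g (φ (g ^ (j + 1)) (u - d)) < φ g (l + d) := (φ g).strictMono ih
        have h2 : φ g (l + d) ≤ φ g (u - d) := (φ g).monotone hld
        linarith
      · exfalso
        have key : ∀ i : ℕ, φ (g ^ (i + 1)) (l + d) < l + d := by
          intro i
          induction i with
          | zero =>
            have h2 : φ g (l + d) ≤ φ g (u - d) := (φ g).monotone hld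
            simpa using lt_of_le_of_lt h2 h
          | succ i ihi =>
            rw [pow_succ', phi_mul]
            have h1 : φ g (φ (g ^ (i + 1)) (l + d)) < φ g (l + d) := (φ g).strictMono ihi
            have h2 : φ g (l + d) ≤ φ g (u - d) := (φ g).monotone hld
            linarith
        have := key j
        linarith
    · right
      rcases ih with ih | ih
      · exfalso
        have key : ∀ i : ℕ, u - d < φ (g ^ (i + 1)) (u - d) := by
          intro i
          induction i with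
          | zero =>
            have h2 : φ g (l + d) ≤ φ g (u - d) := (φ g).monotone hld
            simpa using lt_of_lt_of_le h h2
          | succ i ihi =>
            rw [pow_succ', phi_mul]
            have h1 : φ g (u - d) < φ g (φ (g ^ (i + 1)) (u - d)) := (φ g).strictMono ihi
            have h2 : φ g (l + d) ≤ φ g (u - d) := (φ g).monotone hld
            linarith
        have := key j
        linarith
      · rw [pow_succ', phi_mul]
        have h1 : φ g (u - d) < φ g (φ (g ^ (j + 1)) (l + d)) := (φ g).strictMono ih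
        have h2 : φ g (l + d) ≤ φ g (u - d) := (φ g).monotone hld
        linarith

theorem meet_core (φ : G →* (ℝ ≃o ℝ)) (w : FreeGroup Bool) (hw : w ≠ 1)
    (Sb : Bool → Subgroup G)
    (hUA : ∀ b, UA (FixS φ (Sb b)))
    (hcon : ¬ UA (FixS φ (Sb true) ∩ FixS φ (Sb false))) :
    ∃ D : Bool → G → Prop, (∀ b, ∃ g ∈ Sb b, D b g) ∧ (∀ b g, D b g → ∀ j : ℕ, D b (g ^ (j + 1))) ∧
      (∀ b g, D b g → D b g⁻¹) ∧ (∀ b, ¬ D b 1) ∧
      ∀ gb : Bool → G, (∀ b, gb b ∈ Sb b) → (∀ b, D b (gb b)) → FreeGroup.lift gb w ≠ 1 := by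
  classical
  unfold UA at hcon
  push Not at hcon
  obtain ⟨M0, hM0⟩ := hcon
  set Cs : Bool → Set ℝ := fun b => FixS φ (Sb b) with hCs
  have hCc : ∀ b, IsClosed (Cs b) := fun b => isClosed_FixS φ (Sb b)
  obtain ⟨c0, hc0C, hc0⟩ := hUA true M0
  obtain ⟨d0, hd0C, hd0⟩ := hUA false M0
  set M := max c0 d0 with hM
  have hMM0 : M0 < M := lt_of_lt_of_le hc0 (le_max_left _ _)
  have hdisj : ∀ t, M < t → t ∈ Cs true → t ∉ Cs false := by
    intro t ht h1 h2
    have := hM0 t ⟨h1, h2⟩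
    linarith
  have hdisj' : ∀ b t, M < t → t ∈ Cs b → t ∉ Cs (!b) := by
    intro b t ht h1 h2
    cases b
    · exact hdisj t ht h2 h1
    · exact hdisj t ht h1 h2
  set L := w.toWord with hL
  have hLne : L ≠ [] := by
    intro h
    exact hw (FreeGroup.toWord_eq_nil_iff.1 h)
  have hLred : FreeGroup.IsReduced L := FreeGroup.isReduced_toWord
  set m := L.length with hm
  obtain ⟨T, hT⟩ := exists_far hCc hUA M m
  obtain ⟨p, hTp, hpC⟩ := exists_p2 hCc hUA M hdisj T
  have hpF : Far Cs M m p := hT p hTp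
  have hXM : ∀ i ≤ m, ∀ x ∈ NN Cs p i, M < x := by
    intro i hi x hx
    obtain ⟨k, hk⟩ := Nat.exists_eq_add_of_le hi
    exact (NN_far i k (by rw [← hk]; exact hpF) x hx).base
  have hXb : ∀ i ≤ m, ∀ x ∈ NN Cs p i, ∀ b, x ∉ Cs b → lo (Cs b) x ∈ Cs b ∧ lo (Cs b) x < x ∧
      up (Cs b) x ∈ Cs b ∧ x < up (Cs b) x := by
    intro i hi x hx b hxb
    have h1 := hXM i hi x hx
    obtain ⟨e, he, hex⟩ : ∃ e ∈ Cs b, e ≤ x := by
      cases b with
      | true => exact ⟨c0, hc0C, le_trans (le_max_left _ _) h1.le⟩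
      | false => exact ⟨d0, hd0C, le_trans (le_max_right _ _) h1.le⟩
    obtain ⟨a1, a2, _⟩ := lo_mem (hCc b) he hex
    obtain ⟨c', hc', hcx'⟩ := hUA b x
    obtain ⟨a3, a4, _⟩ := up_mem (hCc b) hc' hcx'.le
    refine ⟨a1, lt_of_le_of_ne a2 ?_, a3, lt_of_le_of_ne a4 ?_⟩
    · intro h; exact hxb (h ▸ a1)
    · intro h; exact hxb (h ▸ a3)
  -- choice of delta
  have hev : ∀ᶠ δ in 𝓝[>] (0:ℝ), 0 < δ ∧ (∀ b, lo (Cs b) p + δ ≤ p ∧ p ≤ up (Cs b) p - δ) ∧
      (∀ i ∈ Finset.range m, ∀ x ∈ NN Cs p i, ∀ b, x ∉ Cs b →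
        (lo (Cs (!b)) (lo (Cs b) x) + δ ≤ lo (Cs b) x - δ ∧
          lo (Cs b) x + δ ≤ up (Cs (!b)) (lo (Cs b) x) - δ) ∧
        (lo (Cs (!b)) (up (Cs b) x) + δ ≤ up (Cs b) x - δ ∧
          up (Cs b) x + δ ≤ up (Cs (!b)) (up (Cs b) x) - δ)) ∧
      (∀ i ∈ Finset.range (m + 1), ∀ x ∈ NN Cs p i, ∀ b, x ∉ Cs b →
        (δ ≤ |p - lo (Cs b) x| ∧ δ ≤ |p - up (Cs b) x|) ∧
        lo (Cs b) x + δ ≤ up (Cs b) x - δ) := by
    refine Filter.Eventually.and self_mem_nhdsWithin ?_
    refine Filter.Eventually.and ?_ (Filter.Eventually.and ?_ ?_)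
    · rw [Filter.eventually_all]
      intro b
      obtain ⟨_, h2, _, h4⟩ := hXb 0 (Nat.zero_le _) p (by simp [NN]) b (hpC b)
      filter_upwards [ev3 (p - lo (Cs b) p) (by linarith), ev3 (up (Cs b) p - p) (by linarith)]
        with δ h5 h6
      constructor <;> linarith
    · rw [Filter.eventually_all_finset]
      intro i hi
      rw [Filter.eventually_all_finset]
      intro x hx
      rw [Filter.eventually_all]
      intro b
      by_cases hxb : x ∈ Cs b
      · exact Filter.Eventually.of_forall (fun δ h => absurd hxb h)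
      have him : i < m := Finset.mem_range.1 hi
      obtain ⟨a1, a2, a3, a4⟩ := hXb i him.le x hx b hxb
      obtain ⟨n1, n2⟩ := NN_lo hx b
      have m1 : lo (Cs b) x ∉ Cs (!b) := hdisj' b _ (hXM (i + 1) him _ n1) a1
      have m2 : up (Cs b) x ∉ Cs (!b) := hdisj' b _ (hXM (i + 1) him _ n2) a3
      obtain ⟨_, u1, _, u2⟩ := hXb (i + 1) him _ n1 (!b) m1
      obtain ⟨_, v1, _, v2⟩ := hXb (i + 1) him _ n2 (!b) m2
      filter_upwards [ev4 _ _ u1, ev4 _ _ u2, ev4 _ _ v1, ev4 _ _ v2] with δ h1 h2 h3 h4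
      exact fun _ => ⟨⟨h1, h2⟩, ⟨h3, h4⟩⟩
    · rw [Filter.eventually_all_finset]
      intro i hi
      rw [Filter.eventually_all_finset]
      intro x hx
      rw [Filter.eventually_all]
      intro b
      by_cases hxb : x ∈ Cs b
      · exact Filter.Eventually.of_forall (fun δ h => absurd hxb h)
      have him : i ≤ m := Nat.lt_succ_iff.1 (Finset.mem_range.1 hi)
      obtain ⟨a1, a2, a3, a4⟩ := hXb i him x hx b hxb
      have n1 : 0 < |p - lo (Cs b) x| := abs_pos.2 (by
        intro h; apply hpC b; rw [sub_eq_zero.1 h]; exact a1)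
      have n2 : 0 < |p - up (Cs b) x| := abs_pos.2 (by
        intro h; apply hpC b; rw [sub_eq_zero.1 h]; exact a3)
      filter_upwards [ev3 _ n1, ev3 _ n2, ev4 _ _ (lt_trans a2 a4)] with δ h5 h6 h7
      exact fun _ => ⟨⟨h5, h6⟩, h7⟩
  obtain ⟨δ, hδ0, hδp, hδB, hδC⟩ := hev.exists
  -- displacement
  have hgb : ∀ b : Bool, ∃ g ∈ Sb b, ∀ i ≤ m, ∀ x ∈ NN Cs p i, x ∉ Cs b →
      Dsp φ g (lo (Cs b) x) (up (Cs b) x) δ := by
    intro b
    set Y := ((Finset.range (m + 1)).biUnion (NN Cs p)).filter (fun x => x ∉ Cs b) with hY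
    have hYX : ∀ x ∈ Y, x ∉ Cs b ∧ ∃ i ≤ m, x ∈ NN Cs p i := by
      intro x hx
      obtain ⟨hx1, hx2⟩ := Finset.mem_filter.1 hx
      obtain ⟨i, hi, hxi⟩ := Finset.mem_biUnion.1 hx1
      exact ⟨hx2, i, Nat.lt_succ_iff.1 (Finset.mem_range.1 hi), hxi⟩
    obtain ⟨g, hgS, hg⟩ := displace φ (Sb b) (lo (Cs b)) (up (Cs b)) Y (fun x => lo (Cs b) x + δ)
      (fun x => up (Cs b) x - δ)
      (fun x hx s hs => by
        obtain ⟨hxb, i, hi, hxi⟩ := hYX x hx
        exact (hXb i hi x hxi b hxb).1 s hs)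
      (fun x hx s hs => by
        obtain ⟨hxb, i, hi, hxi⟩ := hYX x hx
        exact (hXb i hi x hxi b hxb).2.2.1 s hs)
      (fun x _ => by simp [hδ0])
      (fun x hx => by
        obtain ⟨hxb, i, hi, hxi⟩ := hYX x hx
        exact (hδC i (Finset.mem_range.2 (Nat.lt_succ_of_le hi)) x hxi b hxb).2)
      (fun x _ => by simp [hδ0])
      (fun x hx t h1 h2 => by
        obtain ⟨hxb, i, hi, hxi⟩ := hYX x hx
        have h3 : t ∉ Cs b := not_mem_of_between h1 h2 hxb
        by_contra hc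
        push Not at hc
        exact h3 hc)
    refine ⟨g, hgS, ?_⟩
    intro i hi x hx hxb
    exact hg x (Finset.mem_filter.2 ⟨Finset.mem_biUnion.2
      ⟨i, Finset.mem_range.2 (Nat.lt_succ_of_le hi), hx⟩, hxb⟩)
  refine ⟨fun b g => ∀ i ≤ m, ∀ x ∈ NN Cs p i, x ∉ Cs b →
      Dsp φ g (lo (Cs b) x) (up (Cs b) x) δ, hgb, ?_, ?_, ?_, ?_⟩
  · intro b g hg j i hi x hx hxb
    exact Dsp.pow (hδC i (Finset.mem_range.2 (Nat.lt_succ_of_le hi)) x hx b hxb).2
      (hg i hi x hx hxb) j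
  · intro b g hg i hi x hx hxb
    exact (hg i hi x hx hxb).inv
  · intro b h
    have h1 := h 0 (Nat.zero_le _) p (by simp [NN]) (hpC b)
    have h2 := (hδC 0 (Finset.mem_range.2 (Nat.succ_pos _)) p (by simp [NN]) b (hpC b)).2
    rcases h1 with h1 | h1 <;> rw [phi_one] at h1 <;> linarith
  intro gb hgbS hgbD hlaw1
  set el : Bool × Bool → G := fun a => cond a.2 (gb a.1) (gb a.1)⁻¹ with hel
  have helS : ∀ a : Bool × Bool, el a ∈ Sb a.1 := by
    rintro ⟨a, s⟩
    cases s
    · exact (Sb a).inv_mem (hgbS a)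
    · exact hgbS a
  have helD : ∀ a : Bool × Bool, ∀ i ≤ m, ∀ x ∈ NN Cs p i, x ∉ Cs a.1 →
      Dsp φ (el a) (lo (Cs a.1) x) (up (Cs a.1) x) δ := by
    rintro ⟨a, s⟩ i hi x hx hxb
    cases s
    · exact (hgbD a i hi x hx hxb).inv
    · exact hgbD a i hi x hx hxb
  have hends : ∀ a : Bool × Bool, ∀ i ≤ m, ∀ x ∈ NN Cs p i, x ∉ Cs a.1 →
      φ (el a) (lo (Cs a.1) x) = lo (Cs a.1) x ∧ φ (el a) (up (Cs a.1) x) = up (Cs a.1) x := by
    intro a i hi x hx hxb
    obtain ⟨a1, _, a3, _⟩ := hXb i hi x hx a.1 hxb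
    exact ⟨a1 _ (helS a), a3 _ (helS a)⟩
  have main : ∀ (L' : List (Bool × Bool)) (a : Bool × Bool), FreeGroup.IsReduced (a :: L') →
      L'.length < m → ∃ i ≤ L'.length, ∃ x ∈ NN Cs p i, x ∉ Cs a.1 ∧
        Zone φ (el a) (lo (Cs a.1) x) (up (Cs a.1) x) δ (φ ((a :: L').map el).prod p) := by
    intro L'
    induction L' with
    | nil =>
      intro a _ _
      refine ⟨0, le_rfl, p, by simp [NN], hpC a.1, ?_⟩
      obtain ⟨e1, e2⟩ := hends a 0 (Nat.zero_le _) p (by simp [NN]) (hpC a.1)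
      have hd := helD a 0 (Nat.zero_le _) p (by simp [NN]) (hpC a.1)
      simpa using zone_enter e1 e2 hδ0 hd (hδp a.1).1 (hδp a.1).2
    | cons c L'' ih =>
      intro a hred hlen
      unfold FreeGroup.IsReduced at hred ih
      rw [List.isChain_cons_cons] at hred
      obtain ⟨hac, hred'⟩ := hred
      have hlen' : L''.length + 1 < m := by simpa using hlen
      obtain ⟨i, hi, x, hx, hxc, hz⟩ := ih c hred' (by omega)
      have him : i < m := by omega
      rw [List.map_cons, List.prod_cons, phi_mul]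
      by_cases h1 : a.1 = c.1
      · have h2 : a = c := Prod.ext h1 (hac h1)
        subst h2
        refine ⟨i, by simp; omega, x, hx, hxc, ?_⟩
        obtain ⟨e1, e2⟩ := hends a i him.le x hx hxc
        exact zone_stay e1 e2 (hδC i (Finset.mem_range.2 (by omega)) x hx _ hxc).2 hz
      · have h3 : a.1 = !c.1 := by
          cases ha : a.1 <;> cases hc : c.1 <;> simp_all
        obtain ⟨a1, a2, a3, a4⟩ := hXb i him.le x hx c.1 hxc
        obtain ⟨n1, n2⟩ := NN_lo hx c.1
        have m1 : lo (Cs c.1) x ∉ Cs a.1 := by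
          rw [h3]; exact hdisj' c.1 _ (hXM (i + 1) him _ n1) a1
        have m2 : up (Cs c.1) x ∉ Cs a.1 := by
          rw [h3]; exact hdisj' c.1 _ (hXM (i + 1) him _ n2) a3
        obtain ⟨⟨q1, q2⟩, q3, q4⟩ := hδB i (Finset.mem_range.2 him) x hx c.1 hxc
        rw [← h3] at q1 q2 q3 q4
        have hi1 : i + 1 ≤ (c :: L'').length := by simp; omega
        rcases hz with ⟨_, z2, z3⟩ | ⟨_, z2, z3⟩
        · refine ⟨i + 1, hi1, _, n2, m2, ?_⟩
          obtain ⟨e1, e2⟩ := hends a (i + 1) him _ n2 m2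
          exact zone_enter e1 e2 hδ0 (helD a (i + 1) him _ n2 m2) (by linarith) (by linarith)
        · refine ⟨i + 1, hi1, _, n1, m1, ?_⟩
          obtain ⟨e1, e2⟩ := hends a (i + 1) him _ n1 m1
          exact zone_enter e1 e2 hδ0 (helD a (i + 1) him _ n1 m1) (by linarith) (by linarith)
  obtain ⟨a, L', haL⟩ := List.exists_cons_of_ne_nil hLne
  obtain ⟨i, hi, x, hx, hxa, hz⟩ := main L' a (by rw [← haL]; exact hLred) (by
    rw [hm, haL]; simp)
  have hprod : ((a :: L').map el).prod = 1 := by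
    have h1 := hlaw1
    rw [← FreeGroup.mk_toWord (x := w), FreeGroup.lift_mk, ← hL, haL] at h1
    exact h1
  rw [hprod, phi_one] at hz
  have him : i ≤ m := by rw [hm, haL]; simp; omega
  obtain ⟨⟨q1, q2⟩, _⟩ := hδC i (Finset.mem_range.2 (by omega)) x hx a.1 hxa
  rcases hz with ⟨_, z2, z3⟩ | ⟨_, z2, z3⟩
  · have : |p - up (Cs a.1) x| < δ := by rw [abs_lt]; constructor <;> linarith
    linarith
  · have : |p - lo (Cs a.1) x| < δ := by rw [abs_lt]; constructor <;> linarith
    linarith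

/-- Two elements with fixed points near `+∞` and no common fixed point: large powers satisfy no given
word. -/
theorem meet_powers (φ : G →* (ℝ ≃o ℝ)) (w : FreeGroup Bool) (hw : w ≠ 1) (a : Bool → G)
    (hUA : ∀ b, UA {t | φ (a b) t = t})
    (hdis : ∀ t, φ (a true) t = t → φ (a false) t ≠ t) :
    ∃ m : ℕ, 0 < m ∧ ∀ k : ℕ, 0 < k → FreeGroup.lift (fun b => a b ^ (m * k)) w ≠ 1 := by
  have hz : ∀ (x : G) (t : ℝ), t ∈ FixS φ (Subgroup.zpowers x) ↔ φ x t = t := by
    intro x t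
    constructor
    · intro h; exact h x (Subgroup.mem_zpowers x)
    · intro h
      rw [Subgroup.zpowers_eq_closure]
      apply fixS_closure
      intro y hy
      rw [Set.mem_singleton_iff.1 hy]; exact h
  obtain ⟨D, hD1, hD2, hD3, hD4, hD5⟩ := meet_core φ w hw (fun b => Subgroup.zpowers (a b))
    (fun b => UA_mono (fun t ht => (hz _ _).2 ht) (hUA b)) (by
      intro h
      obtain ⟨t, ⟨h1, h2⟩, _⟩ := h 0
      exact hdis t ((hz _ _).1 h1) ((hz _ _).1 h2))
  have h6 : ∀ b, ∃ n : ℕ, 0 < n ∧ D b (a b ^ n) := by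
    intro b
    obtain ⟨g, hg, hDg⟩ := hD1 b
    obtain ⟨z, rfl⟩ := Subgroup.mem_zpowers_iff.1 hg
    rcases lt_trichotomy z 0 with h | h | h
    · refine ⟨(-z).toNat, by omega, ?_⟩
      have h7 := hD3 _ _ hDg
      rw [← zpow_neg] at h7
      have h8 : ((-z).toNat : ℤ) = -z := Int.toNat_of_nonneg (by omega)
      rw [← h8, zpow_natCast] at h7
      exact h7
    · rw [h, zpow_zero] at hDg
      exact absurd hDg (hD4 b)
    · refine ⟨z.toNat, by omega, ?_⟩
      have h8 : (z.toNat : ℤ) = z := Int.toNat_of_nonneg (by omega)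
      rw [← h8, zpow_natCast] at hDg
      exact hDg
  obtain ⟨n1, hn1, hD11⟩ := h6 true
  obtain ⟨n2, hn2, hD12⟩ := h6 false
  refine ⟨n1 * n2, Nat.mul_pos hn1 hn2, fun k hk => ?_⟩
  apply hD5
  · intro b
    exact Subgroup.pow_mem _ (Subgroup.mem_zpowers _) _
  · have key : ∀ (b : Bool) (n c : ℕ), D b (a b ^ n) → 0 < c → D b (a b ^ (n * c)) := by
      intro b n c h hc
      obtain ⟨j, rfl⟩ := Nat.exists_eq_succ_of_ne_zero hc.ne'
      rw [pow_mul]
      exact hD2 _ _ h j
    intro b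
    cases b with
    | true =>
      rw [mul_assoc]
      exact key true n1 _ hD11 (Nat.mul_pos hn2 hk)
    | false =>
      have e : n1 * n2 * k = n2 * (n1 * k) := by ring
      rw [e]
      exact key false n2 _ hD12 (Nat.mul_pos hn1 hk)

end Pool.Agent.Helper94.Tarski
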