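import Mathlib
import Pool.Agent.Helper580.Law.Final
import Pool.Agent.Helper94.Tarski.Core
import Pool.Agent.Helper94.Tarski.BiSimple

set_option autoImplicit false

/-!
# Right-orderable simple groups all of whose proper subgroups are cyclic
-/

namespace Pool.Agent.Helper94.Tarski

open Pool.Agent.Helper580.Engel Pool.Agent.Helper580.Law

theorem exists_action {G : Type*} [Group G] [LinearOrder G] [Countable G] [Nontrivial G]
    (hmul : ∀ a b c : G, a ≤ b → a * c ≤ b * c) :
    ∃ ρ : G →* (ℝ ≃o ℝ), ∀ t : ℝ, ∃ g : G, ρ g t ≠ t := by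
  classical
  have hr : ∀ a b c : G, a < b → a * c < b * c := by
    intro a b c h
    refine lt_of_le_of_ne (hmul _ _ c h.le) ?_
    intro h2
    exact h.ne (mul_right_cancel h2)
  obtain ⟨q, hq⟩ : ∃ q : G, 1 < q := by
    obtain ⟨x, hx⟩ := exists_ne (1 : G)
    rcases lt_or_gt_of_ne hx with h | h
    · refine ⟨x⁻¹, ?_⟩
      have := hr _ _ x⁻¹ h
      rwa [mul_inv_cancel, one_mul] at this
    · exact ⟨x, h⟩
  have : NoMaxOrder G := ⟨fun a => ⟨q * a, by
    have := hr _ _ a hq
    rwa [one_mul] at this⟩⟩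
  have : NoMinOrder G := ⟨fun a => ⟨q⁻¹ * a, by
    have h2 := hr _ _ (q⁻¹ * a) hq
    rw [one_mul, mul_inv_cancel_left] at h2
    exact h2⟩⟩
  let act : G →* (G ≃o G) :=
    { toFun := fun h =>
        { toFun := fun x => x * h⁻¹
          invFun := fun x => x * h
          left_inv := fun x => by simp
          right_inv := fun x => by simp
          map_rel_iff' := by
            intro a b
            constructor
            · intro h2
              have := hmul _ _ h h2
              simpa using this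
            · intro h2
              exact hmul _ _ h⁻¹ h2 }
      map_one' := by
        ext x
        simp
      map_mul' := by
        intro a b
        ext x
        simp [mul_assoc] }
  have hact : ∀ h x : G, act h x = x * h⁻¹ := fun h x => rfl
  obtain ⟨ρ, ι, hι, hρ, hup, hdown⟩ := Realise.realise act
  refine ⟨ρ, fun t => ?_⟩
  by_contra hcon
  push Not at hcon
  obtain ⟨x, hx⟩ := hup t
  obtain ⟨y, hy⟩ := hdown t
  have h3 := hcon (x⁻¹ * y)
  have h4 := (ρ (x⁻¹ * y)).strictMono hy
  rw [hρ, h3, hact] at h4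
  have h5 : y * (x⁻¹ * y)⁻¹ = x := by group
  rw [h5] at h4
  exact lt_asymm h4 hx

/-- two non-commuting elements generate -/
theorem gen_of_not_comm {G : Type*} [Group G] (hcyc : ∀ H : Subgroup G, H ≠ ⊤ → IsCyclic H)
    {a b : G} (hab : a * b ≠ b * a) : Subgroup.closure {a, b} = ⊤ := by
  by_contra h
  have := hcyc _ h
  obtain ⟨g, hg⟩ := this
  obtain ⟨i, hi⟩ := Subgroup.mem_zpowers_iff.1 (hg ⟨a, Subgroup.subset_closure (by simp)⟩)
  obtain ⟨j, hj⟩ := Subgroup.mem_zpowers_iff.1 (hg ⟨b, Subgroup.subset_closure (by simp)⟩)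
  apply hab
  have h1 : (⟨a, Subgroup.subset_closure (by simp)⟩ : Subgroup.closure ({a, b} : Set G)) *
      ⟨b, Subgroup.subset_closure (by simp)⟩ =
      (⟨b, Subgroup.subset_closure (by simp)⟩ : Subgroup.closure ({a, b} : Set G)) *
      ⟨a, Subgroup.subset_closure (by simp)⟩ := by
    rw [← hi, ← hj, ← zpow_add, ← zpow_add, add_comm]
  exact congrArg Subtype.val h1

theorem main (G : Type*) [Group G] [LinearOrder G]
    (hmul : ∀ a b c : G, a ≤ b → a * c ≤ b * c) [hs : IsSimpleGroup G]
    (hna : ∃ a b : G, a * b ≠ b * a)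
    (hcyc : ∀ H : Subgroup G, H ≠ ⊤ → IsCyclic H) :
    ∃ c g : G, ∀ W : Finset (FreeGroup Bool), (1 : FreeGroup Bool) ∉ W →
      ∃ m : ℕ, 0 < m ∧ ∀ k : ℕ, 0 < k →
        Subgroup.closure {c ^ (m * k), g * c ^ (m * k) * g⁻¹} = ⊤ ∧
        ∀ w ∈ W, FreeGroup.lift (fun b : Bool =>
          cond b (c ^ (m * k)) (g * c ^ (m * k) * g⁻¹)) w ≠ 1 := by
  classical
  obtain ⟨a0, b0, hab0⟩ := hna
  have hgen0 := gen_of_not_comm hcyc hab0
  have hfg : Group.FG G := by
    refine Group.fg_def.2 ⟨{a0, b0}, ?_⟩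
    simpa using hgen0
  have hcount : Countable G := by
    have h1 : Countable (Subgroup.closure ((({a0, b0} : Finset G) : Set G))) :=
      countable_closure _
    have h0 : Subgroup.closure ((({a0, b0} : Finset G) : Set G)) = ⊤ := by simpa using hgen0
    rw [h0] at h1
    exact (Subgroup.topEquiv (G := G)).symm.toEquiv.injective.countable
  obtain ⟨ρ, hρ⟩ := exists_action hmul
  -- no common fixed point for non-commuting pairs
  have hnofix : ∀ x y : G, x * y ≠ y * x → ∀ t, ρ x t = t → ρ y t ≠ t := by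
    intro x y hxy t h1 h2
    obtain ⟨g, hg⟩ := hρ t
    apply hg
    have h3 : t ∈ FixS ρ (Subgroup.closure ({x, y} : Set G)) := by
      apply fixS_closure
      intro z hz
      rcases hz with rfl | hz
      · exact h1
      · rw [Set.mem_singleton_iff.1 hz]; exact h2
    rw [gen_of_not_comm hcyc hxy] at h3
    exact h3 g trivial
  -- an element with fixed points unbounded above
  obtain ⟨c, hc1, hcUA⟩ : ∃ c : G, c ≠ 1 ∧ UA {t | ρ c t = t} := by
    by_contra hcon
    push Not at hcon
    apply hab0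
    refine comm_of_cone hfg (PP0 ρ) (PP0_one ρ) (fun a ha b hb => PP0_mul ρ ha hb) ?_
      (fun g hg h => PP0_conj ρ hg h) a0 b0
    intro g hg
    rcases trich ρ g with h | h | h
    · exact absurd h (hcon g hg)
    · exact Or.inl h
    · exact Or.inr h
  -- a conjugate that does not commute with it
  obtain ⟨g, hg⟩ : ∃ g : G, c * (g * c * g⁻¹) ≠ (g * c * g⁻¹) * c := by
    by_contra hcon
    push Not at hcon
    have h1 : Subgroup.normalClosure {c} ≤ Subgroup.centralizer {c} := by
      unfold Subgroup.normalClosure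
      rw [Subgroup.closure_le]
      intro x hx
      obtain ⟨y, hy, hyx⟩ := Group.mem_conjugatesOfSet_iff.1 hx
      rw [Set.mem_singleton_iff.1 hy] at hyx
      obtain ⟨h, rfl⟩ := isConj_iff.1 hyx
      rw [SetLike.mem_coe, Subgroup.mem_centralizer_iff]
      intro z hz
      rw [Set.mem_singleton_iff.1 hz]
      exact hcon h
    have h2 : Subgroup.normalClosure {c} = ⊤ := by
      rcases (Subgroup.normalClosure_normal (s := {c})).eq_bot_or_eq_top with h | h
      · exfalso
        apply hc1
        rw [← Subgroup.mem_bot, ← h]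
        exact Subgroup.subset_normalClosure rfl
      · exact h
    have h3 : c ∈ Subgroup.center G := by
      rw [Subgroup.mem_center_iff]
      intro x
      have h4 : x ∈ Subgroup.centralizer {c} := h1 (by rw [h2]; trivial)
      exact (Subgroup.mem_centralizer_iff.1 h4 c rfl).symm
    rcases (inferInstance : (Subgroup.center G).Normal).eq_bot_or_eq_top with h | h
    · rw [h, Subgroup.mem_bot] at h3; exact hc1 h3
    · apply hab0
      have h5 : b0 ∈ Subgroup.center G := by rw [h]; trivial
      exact Subgroup.mem_center_iff.1 h5 a0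
  have hgUA : UA {t | ρ (g * c * g⁻¹) t = t} := by
    intro M
    obtain ⟨t, ht, hM⟩ := hcUA (ρ g⁻¹ M)
    refine ⟨ρ g t, ?_, ?_⟩
    · show ρ (g * c * g⁻¹) (ρ g t) = ρ g t
      rw [phi_mul, phi_inv_apply, phi_mul]
      rw [show ρ c t = t from ht]
    · have := (ρ g).strictMono hM
      rwa [phi_apply_inv] at this
  set a : Bool → G := fun b => cond b c (g * c * g⁻¹) with ha
  have hpow : ∀ (n : ℕ), (fun b => a b ^ n) = fun b : Bool =>
      cond b (c ^ n) (g * c ^ n * g⁻¹) := by
    intro n
    funext b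
    cases b with
    | true => rfl
    | false => simp [ha, conj_pow]
  have hone : ∀ w : FreeGroup Bool, w ≠ 1 → ∃ m : ℕ, 0 < m ∧ ∀ k : ℕ, 0 < k →
      FreeGroup.lift (fun b => a b ^ (m * k)) w ≠ 1 := by
    intro w hw
    refine meet_powers ρ w hw a ?_ ?_
    · intro b
      cases b with
      | true => exact hcUA
      | false => exact hgUA
    · exact hnofix _ _ hg
  refine ⟨c, g, fun W hW => ?_⟩
  -- the commutator word
  set w0 : FreeGroup Bool := FreeGroup.of true * FreeGroup.of false *
    (FreeGroup.of true)⁻¹ * (FreeGroup.of false)⁻¹ with hw0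
  have hw01 : w0 ≠ 1 := by
    intro h
    have h1 := congrArg (FreeGroup.lift (fun b : Bool =>
      cond b (Equiv.swap (0 : Fin 3) 1) (Equiv.swap (1 : Fin 3) 2))) h
    simp only [hw0, map_mul, map_inv, FreeGroup.lift_apply_of, map_one, cond_true, cond_false] at h1
    revert h1
    decide
  have key : ∀ V : Finset (FreeGroup Bool), (1 : FreeGroup Bool) ∉ V →
      ∃ m : ℕ, 0 < m ∧ ∀ k : ℕ, 0 < k → ∀ w ∈ V,
        FreeGroup.lift (fun b => a b ^ (m * k)) w ≠ 1 := by
    intro V
    induction V using Finset.induction_on with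
    | empty => intro _; exact ⟨1, one_pos, by simp⟩
    | insert v V _ ih =>
      intro hV
      obtain ⟨m1, hm1, h1⟩ := ih (fun h => hV (Finset.mem_insert_of_mem h))
      obtain ⟨m2, hm2, h2⟩ := hone v (fun h => hV (h ▸ Finset.mem_insert_self _ _))
      refine ⟨m1 * m2, Nat.mul_pos hm1 hm2, fun k hk w hw => ?_⟩
      rcases Finset.mem_insert.1 hw with rfl | hw
      · have := h2 (m1 * k) (Nat.mul_pos hm1 hk)
        rwa [show m2 * (m1 * k) = m1 * m2 * k by ring] at this
      · have := h1 (m2 * k) (Nat.mul_pos hm2 hk) w hw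
        rwa [show m1 * (m2 * k) = m1 * m2 * k by ring] at this
  obtain ⟨m, hm, h⟩ := key (insert w0 W) (by
    intro h
    rcases Finset.mem_insert.1 h with h | h
    · exact hw01 h.symm
    · exact hW h)
  refine ⟨m, hm, fun k hk => ⟨?_, ?_⟩⟩
  · apply gen_of_not_comm hcyc
    intro hcomm
    apply h k hk w0 (Finset.mem_insert_self _ _)
    rw [hpow]
    simp only [hw0, map_mul, map_inv, FreeGroup.lift_apply_of, cond_true, cond_false]
    rw [hcomm]
    group
  · intro w hw
    have := h k hk w (Finset.mem_insert_of_mem hw)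
    rwa [hpow] at this

/-- no law -/
theorem no_law (G : Type*) [Group G] [LinearOrder G]
    (hmul : ∀ a b c : G, a ≤ b → a * c ≤ b * c) [hs : IsSimpleGroup G]
    (hna : ∃ a b : G, a * b ≠ b * a)
    (hcyc : ∀ H : Subgroup G, H ≠ ⊤ → IsCyclic H) (n : ℕ) (w : FreeGroup (Fin n)) (hw : w ≠ 1) :
    ∃ f : Fin n → G, FreeGroup.lift f w ≠ 1 := by
  by_contra hcon
  push Not at hcon
  obtain ⟨v, hv, hlaw⟩ := two_var n w hw hcon
  obtain ⟨c, g, h⟩ := main G hmul hna hcyc
  obtain ⟨m, hm, h1⟩ := h {v} (by simpa using hv.symm)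
  exact (h1 1 one_pos).2 v (by simp) (hlaw _)

end Pool.Agent.Helper94.Tarski
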